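import Pool.Agent.Helper32.OIP.Goals

/-! # Packet OIP-O8b (MP_fc0446_an): `GhA` approximates `GA` -/

set_option autoImplicit false

namespace Pool.Agent.Helper16.OIP

open MeasureTheory Pool.Agent.Helper32.OIP Pool.Agent.Helper58.Orb

section

variable {A B : Type} [Group A] [Group B] {S : Set A} {S' : Set B} {D L : Type}

theorem tg_eq_of (T : TreeData A S D) (T' : TreeData B S' L) (e₀ : D ≃ L) (t : A → Bern A → B)
    (x : Bern A) (g : D ≃ L) (h : ∀ s, T'.dir (g s) = t (T.dir s) x) :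
    tg T T' e₀ t x = g := by
  unfold tg
  have h1 : ∃ f : D ≃ L, ∀ s, T'.dir (f s) = t (T.dir s) x := ⟨g, h⟩
  rw [dif_pos h1]
  ext s
  apply T'.inj
  rw [h1.choose_spec s, h s]

theorem exists_lift (T' : TreeData B S' L) (l : List B) (hl : ∀ a ∈ l, a ∈ S') :
    ∃ l' : List L, l'.map T'.dir = l := by
  induction l with
  | nil => exact ⟨[], rfl⟩
  | cons a l ih =>
    obtain ⟨l', h1⟩ := ih fun a ha => hl a (List.mem_cons_of_mem _ ha)
    obtain ⟨s, h2⟩ := T'.exists_dir (hl a List.mem_cons_self)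
    exact ⟨s :: l', by rw [List.map_cons, h1, h2]⟩

theorem lsOf_spec (T' : TreeData B S' L) (hinv : ∀ x : B, T'.len x⁻¹ = T'.len x) (b : B) :
    ((lsOf T' b).map T'.dir).prod = b⁻¹ ∧ (lsOf T' b).length = T'.len b := by
  have h : ∃ l : List L, (l.map T'.dir).prod = b⁻¹ ∧ l.length = T'.len b := by
    obtain ⟨l, h1, h2, h3⟩ := T'.exists_list b⁻¹
    obtain ⟨l', h4⟩ := exists_lift T' l h1
    refine ⟨l', ?_, ?_⟩
    · rw [h4, h2]
    · rw [← hinv b, ← h3, ← h4, List.length_map]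
  unfold lsOf
  rw [dif_pos h]
  exact h.choose_spec

theorem eq_of_shift_eq {y : Bern B} (hy : ∀ g : B, shift g y = y → g = 1) {a b : B}
    (h : shift a y = shift b y) : a = b := by
  have h1 : b⁻¹ * a = 1 := by
    apply hy
    rw [shift_mul, h, shift_inv_shift]
  have h2 := congrArg (fun z => b * z) h1
  simpa using h2

/-- The pointwise claim. -/
theorem pointwise (T : TreeData A S D) (T' : TreeData B S' L) (e₀ : D ≃ L)
    (hinv : ∀ x : B, T'.len x⁻¹ = T'.len x)
    (Φ : Bern A → Bern B) (f : Bern A → unitInterval) (t : A → Bern A → B) (m : ℕ) (x : Bern A)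
    (hlab : ∀ g : A, ∀ s, Φ (shift (T.dir s) (shift g x)) =
      shift (T'.dir (lab T T' e₀ Φ (shift g x) s)) (Φ (shift g x)))
    (hfree : ∀ g : A, ∀ b : B, shift b (Φ (shift g x)) = Φ (shift g x) → b = 1)
    (hw : ∀ g ∈ bl T m, shift g x ∉ wrong S Φ f t) :
    tg T T' e₀ t x = lab T T' e₀ Φ x ∧
      ∀ b ∈ bl T' m, Yd T T' m (dg T T' e₀ f t x) b = Φ x b := by
  have hf : ∀ g ∈ bl T m, f (shift g x) = Φ (shift g x) 1 := by
    intro g hg
    by_contra hne
    exact hw g hg (Or.inl hne)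
  have htg : ∀ g ∈ bl T m, tg T T' e₀ t (shift g x) = lab T T' e₀ Φ (shift g x) := by
    intro g hg
    apply tg_eq_of
    intro s
    apply eq_of_shift_eq (hfree g)
    rw [← hlab g s]
    by_contra hne
    exact hw g hg (Or.inr ⟨T.dir s, T.dir_mem s, hne⟩)
  have hpp : ∀ ls : List L, ls.length ≤ m →
      T.len (ppos T (dg T T' e₀ f t x) ls) ≤ ls.length ∧
      Φ (shift (ppos T (dg T T' e₀ f t x) ls) x) = shift (ls.map T'.dir).prod (Φ x) := by
    intro ls
    induction ls with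
    | nil =>
      intro _
      refine ⟨T.len_one.le, ?_⟩
      change Φ (shift 1 x) = shift 1 (Φ x)
      rw [shift_one, shift_one]
    | cons l ls ih =>
      intro hl
      rw [List.length_cons] at hl
      obtain ⟨h1, h2⟩ := ih (by omega)
      set p := ppos T (dg T T' e₀ f t x) ls with hp
      have hpm : p ∈ bl T m := by
        change T.len p ≤ m
        omega
      have h3 : ppos T (dg T T' e₀ f t x) (l :: ls) =
          T.dir ((lab T T' e₀ Φ (shift p x)).symm l) * p := by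
        rw [← htg p hpm]
        rfl
      rw [h3]
      constructor
      · have := T.len_mul_le ((lab T T' e₀ Φ (shift p x)).symm l) p
        rw [List.length_cons]
        omega
      · rw [shift_mul, hlab p, Equiv.apply_symm_apply, h2, List.map_cons, List.prod_cons, shift_mul]
  constructor
  · have h1 : (1 : A) ∈ bl T m := by
      change T.len 1 ≤ m
      rw [T.len_one]
      exact Nat.zero_le _
    have h2 := htg 1 h1
    rwa [shift_one] at h2
  · intro b hb
    have hb' : T'.len b ≤ m := hb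
    obtain ⟨h1, h2⟩ := lsOf_spec T' hinv b
    obtain ⟨h3, h4⟩ := hpp (lsOf T' b) (by rw [h2]; exact hb')
    unfold Yd
    rw [if_pos hb']
    change f (shift (ppos T (dg T T' e₀ f t x) (lsOf T' b)) x) = Φ x b
    rw [hf _ (by change T.len _ ≤ m; omega), h4, h1]
    change Φ x (b⁻¹⁻¹ * 1) = Φ x b
    rw [inv_inv, mul_one]

theorem meas_wrong [Countable A] [Countable B] (Φ : Bern A → Bern B) (hΦ : Measurable Φ)
    (f : Bern A → unitInterval) (t : A → Bern A → B) (hf : Measurable f)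
    (ht : ∀ s ∈ S, ∀ h : B, MeasurableSet {x | t s x = h}) :
    MeasurableSet (wrong S Φ f t) := by
  have h1 : wrong S Φ f t = {x | f x = Φ x 1}ᶜ ∪
      ⋃ s ∈ S, ⋃ h : B, {x | t s x = h} ∩ (agree Φ s h)ᶜ := by
    ext x
    simp only [wrong, agree, Set.mem_ofPred_eq, Set.mem_union, Set.mem_compl_iff, Set.mem_iUnion,
      Set.mem_inter_iff, exists_prop, ne_eq]
    constructor
    · rintro (h | ⟨s, hs, h⟩)
      · exact Or.inl h
      · exact Or.inr ⟨s, hs, t s x, rfl, h⟩
    · rintro (h | ⟨s, hs, b, rfl, h⟩)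
      · exact Or.inl h
      · exact Or.inr ⟨s, hs, h⟩
  rw [h1]
  refine (measurableSet_coord_eq hf ((measurable_pi_apply 1).comp hΦ)).compl.union ?_
  refine MeasurableSet.biUnion (Set.to_countable _) fun s hs => MeasurableSet.iUnion fun h => ?_
  exact (ht s hs h).inter (measurableSet_agree hΦ s h).compl

end

theorem o8b : GoalO8b := by
  intro hR0 hO1 hO2 hO3 hO7 hMA1 hMA2 hS0 hO4 A B _ _ _ _ S S' D L _ _ _ T T' e₀ Φ Ψ α m hI hα hdep
    f t hf ht q h0 h1
  classical
  obtain ⟨i1, i2, _, _⟩ := (hS0 hMA1).1 q h0 h1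
  haveI := i1
  haveI := i2
  haveI hpm : IsProbabilityMeasure (pm A (nu q)) := by unfold pm; infer_instance
  obtain ⟨-, hfin, -⟩ := hO7 hR0 hO1 hO2 hO3 hO4 hMA1 hMA2 hS0 A B S S' D L T T' e₀ Φ Ψ α m hI hα
    hdep
  have hfs : MeasurePreserving (fs : (A → E0) → Bern A) (pm A (nu q)) (bern A) := by
    have h : MeasurePreserving (Prod.fst : E0 → unitInterval) (nu q) volume :=
      measurePreserving_fst
    exact hMA1.1 A E0 unitInterval (nu q) volume (fun _ => Prod.fst) fun _ => h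
  have hΦ := hI.isoL.measurePreserving
  have hinv := (hR0 B S' L T').2.1
  have a1 := ae_forall_shift (hO1 A B S S' D L T T' e₀ Φ hI.isoL).2.1
  have a2 := ae_forall_shift (hΦ.quasiMeasurePreserving.ae (ae_free (G := B)))
  have a3 := (hO3 hR0 hO1 hO2 A B S S' D L T T' e₀ Φ Ψ hI).1
  have hstar : ∀ᵐ x ∂(bern A), (∀ g ∈ bl T m, shift g x ∉ wrong S Φ f t) →
      (lab T' T e₀.symm Ψ (Φ x) ≠ α (Φ x) ↔
        (tg T T' e₀ t x).symm ≠ α (Yd T T' m (dg T T' e₀ f t x))) := by
    filter_upwards [a1, a2, a3] with x x1 x2 x3 hw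
    obtain ⟨h2, h3⟩ := pointwise T T' e₀ hinv Φ f t m x x1 x2 hw
    have h4 : α (Yd T T' m (dg T T' e₀ f t x)) = α (Φ x) := hdep h3
    rw [x3, h2, h4]
  have hstar' : ∀ᵐ z ∂(pm A (nu q)), (∀ g ∈ bl T m, shift g (fs z) ∉ wrong S Φ f t) →
      (lab T' T e₀.symm Ψ (Φ (fs z)) ≠ α (Φ (fs z)) ↔
        (tg T T' e₀ t (fs z)).symm ≠ α (Yd T T' m (dg T T' e₀ f t (fs z)))) :=
    hfs.quasiMeasurePreserving.ae hstar
  have hwm := meas_wrong Φ hΦ.measurable f t hf ht
  have hsub : symmDiff (GA T T' e₀ Φ Ψ α m) (GhA T T' e₀ α m f t) ≤ᵐ[pm A (nu q)]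
      ⋃ g ∈ hfin.toFinset, (fun z : A → E0 => shift g (fs z)) ⁻¹' wrong S Φ f t := by
    filter_upwards [hstar'] with z hz hmem
    by_contra hcon
    have hcon' : ∀ g ∈ bl T m, shift g (fs z) ∉ wrong S Φ f t := by
      intro g hg hg'
      apply hcon
      change z ∈ ⋃ g ∈ hfin.toFinset, (fun z : A → E0 => shift g (fs z)) ⁻¹' wrong S Φ f t
      simp only [Set.mem_iUnion, Set.Finite.mem_toFinset, Set.mem_preimage, exists_prop]
      exact ⟨g, hg, hg'⟩
    have h2 := hz hcon'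
    have h3 : z ∈ GA T T' e₀ Φ Ψ α m ↔ z ∈ GhA T T' e₀ α m f t := by
      change (_ ∨ _) ↔ (_ ∨ _)
      rw [h2]
    have hmem' : z ∈ symmDiff (GA T T' e₀ Φ Ψ α m) (GhA T T' e₀ α m f t) := hmem
    rw [Set.mem_symmDiff] at hmem'
    tauto
  have hone : ∀ g : A, (pm A (nu q)).real ((fun z : A → E0 => shift g (fs z)) ⁻¹' wrong S Φ f t) =
      (bern A).real (wrong S Φ f t) := by
    intro g
    exact ((measurePreserving_shift g).comp hfs).measureReal_preimage hwm.nullMeasurableSet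
  calc (pm A (nu q)).real (symmDiff (GA T T' e₀ Φ Ψ α m) (GhA T T' e₀ α m f t))
      ≤ (pm A (nu q)).real (⋃ g ∈ hfin.toFinset,
          (fun z : A → E0 => shift g (fs z)) ⁻¹' wrong S Φ f t) := by
        unfold Measure.real
        exact ENNReal.toReal_mono (measure_ne_top _ _) (measure_mono_ae hsub)
    _ ≤ ∑ g ∈ hfin.toFinset,
          (pm A (nu q)).real ((fun z : A → E0 => shift g (fs z)) ⁻¹' wrong S Φ f t) :=
        measureReal_biUnion_finset_le _ _
    _ = (bl T m).ncard * (bern A).real (wrong S Φ f t) := by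
        rw [Finset.sum_congr rfl fun g _ => hone g, Finset.sum_const, nsmul_eq_mul,
          Set.ncard_eq_toFinset_card _ hfin]

end Pool.Agent.Helper16.OIP
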